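import Pool.Agent.Helper44.GN.Defs

/-!
# MP_d210aa_gt: the inequality for the finite model (THA)
-/

open Finset MeasureTheory Filter Topology Matrix
open scoped ENNReal ContDiff

namespace Pool.Agent.Helper44.GN

open Pool.Agent.Helper44.GF

theorem tha_compact (n : ℕ) (δ : ℝ) : IsCompact (Bx n δ) :=
  isCompact_univ_pi fun _ => isCompact_Icc

theorem tha_meas (n : ℕ) (δ : ℝ) : MeasurableSet (Bx n δ) :=
  (tha_compact n δ).isClosed.measurableSet

theorem tha_pos {n : ℕ} {δ : ℝ} (hδ : 0 < δ) {z : Fin n → ℝ} (hz : z ∈ Bx n δ) (x : Fin n) :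
    0 < z x := lt_of_lt_of_le hδ (hz x (Set.mem_univ x)).1

theorem tha_Y {n : ℕ} {α a δ : ℝ} (h : Pm α a δ) {z : Fin n → ℝ} (hz : z ∈ Bx n δ) :
    Yv α a z ∈ Og n := by
  intro x
  have h1 : 0 < z x ^ (-(4 / α)) := Real.rpow_pos_of_pos (tha_pos h.d0 hz x) _
  have h2 := h.a0
  show 0 < 1 + a * z x ^ (-(4 / α))
  positivity

theorem tha_Yc {n : ℕ} {α a δ : ℝ} (h : Pm α a δ) :
    ContinuousOn (fun z : Fin n → ℝ => Yv α a z) (Bx n δ) := by
  refine continuousOn_pi.2 fun x => ?_
  refine continuousOn_const.add (continuousOn_const.mul ?_)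
  refine ContinuousOn.rpow_const (continuous_apply x).continuousOn ?_
  intro z hz
  exact Or.inl (tha_pos h.d0 hz x).ne'

theorem tha_comp {n : ℕ} {α a δ : ℝ} (h : Pm α a δ) {g : (Fin n → ℝ) → ℝ}
    (hg : ContinuousOn g (Og n)) : ContinuousOn (fun z => g (Yv α a z)) (Bx n δ) :=
  hg.comp (tha_Yc h) (fun _ hz => tha_Y h hz)

theorem tha_int {n : ℕ} {δ : ℝ} {f : (Fin n → ℝ) → ℝ} (hf : ContinuousOn f (Bx n δ)) :
    IntegrableOn f (Bx n δ) := hf.integrableOn_compact (tha_compact n δ)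

theorem tha_wzc (n : ℕ) : Continuous (fun z : Fin n → ℝ => wz z) := by
  unfold wz
  fun_prop

theorem tha_wz0 {n : ℕ} {δ : ℝ} (hδ : 0 < δ) {z : Fin n → ℝ} (hz : z ∈ Bx n δ) : 0 < wz z :=
  Finset.prod_pos fun x _ => pow_pos (tha_pos hδ hz x) 3

theorem st_THA (h1 : ST_RHO) (h2 : ST_FCT) (h3 : ST_EN1) (h4 : ST_EN2) (h5 : ST_EN3)
    (h6 : ST_HR2) (h7 : ST_SMO) : ST_THA := by
  intro n m V W α a δ hV hW hP
  have hd1 : δ < 1 := lt_of_le_of_lt hP.d1 (by norm_num)
  set q : (Fin n → ℝ) → ℝ := fun z => qf V (Yv α a z) with hq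
  set w : (Fin n → ℝ) → ℝ := fun z => qf W (Yv α a z) with hw
  set S : (Fin n → ℝ) → ℝ := fun z => sg V W (Yv α a z) with hS
  set X : (Fin n → ℝ) → ℝ := fun z => Xf V W (Yv α a z) with hX
  set ρ : (Fin n → ℝ) → ℝ := rho V α a with hρ
  have hF : ∀ z ∈ Bx n δ, 0 < q z ∧ 0 < w z ∧ 0 ≤ S z := fun z hz => by
    have h := h2 n m V W hV hW (Yv α a z) (tha_Y hP hz)
    exact ⟨h.1, h.2.1, h.2.2.1⟩
  have hXd : ∀ z, X z = 1 / 2 * (Real.log (w z) - Real.log (q z)) := fun z => rfl
  have hρd : ∀ z, ρ z = wz z * q z ^ (-(1 / 2) : ℝ) := fun z => rfl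
  have hρe : ∀ z ∈ Bx n δ, ρ z = wz z * Real.exp (-(1 / 2) * Real.log (q z)) := by
    intro z hz
    rw [hρd, Real.rpow_def_of_pos (hF z hz).1]
    ring_nf
  have hlq : ContinuousOn (fun z => Real.log (q z)) (Bx n δ) :=
    tha_comp hP (h7 n m V W hV hW).1.continuousOn
  have hlw : ContinuousOn (fun z => Real.log (w z)) (Bx n δ) :=
    tha_comp hP (h7 n m W V hW hV).1.continuousOn
  have hSc : ContinuousOn S (Bx n δ) := tha_comp hP (h7 n m V W hV hW).2.1.continuousOn
  have hXc : ContinuousOn X (Bx n δ) := (continuousOn_const.mul (hlw.sub hlq)).congr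
    fun z _ => hXd z
  have hρc : ContinuousOn ρ (Bx n δ) := by
    refine ContinuousOn.congr (f := fun z => wz z * Real.exp (-(1 / 2) * Real.log (q z))) ?_ hρe
    exact (tha_wzc n).continuousOn.mul
      (Real.continuous_exp.comp_continuousOn (continuousOn_const.mul hlq))
  have hρ0 : ∀ z ∈ Bx n δ, 0 < ρ z := fun z hz => by
    rw [hρe z hz]
    exact mul_pos (tha_wz0 hP.d0 hz) (Real.exp_pos _)
  have hWH : WH δ ρ := ⟨hP.d0, hd1, hρc, hρ0⟩
  have hS0 : ∀ z ∈ Bx n δ, 0 ≤ S z := fun z hz => (hF z hz).2.2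
  have hA := h6 n δ (11 / 50) ρ (fun z => X z - 1 / 2 * S z) S hWH
    (hXc.sub (continuousOn_const.mul hSc)) hSc hS0 (by norm_num) (by norm_num)
    (fun t ht0 ht1 => h3 n m V W α a δ t hV hW hP ht0 ht1)
    (fun t ht0 ht1 => h5 n m V W α a δ t hV hW hP ht0 ht1)
  have hB := h6 n δ (11 / 200) ρ (fun z => -X z) S hWH
    hXc.neg hSc hS0 (by norm_num) (by norm_num)
    (fun t ht0 ht1 => h4 n m V W α a δ t hV hW hP ht0 ht1)
    (fun t ht0 ht1 => h5 n m V W α a δ t hV hW hP ht0 ht1)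
  have hne : (volume (Bx n δ)) ≠ 0 := by
    have hvol : volume (Bx n δ) = ENNReal.ofReal ((1 - δ) ^ n) := by
      unfold Bx
      rw [volume_pi_pi, Finset.prod_const, Real.volume_Icc, Finset.card_univ,
        Fintype.card_fin, ENNReal.ofReal_pow (by linarith)]
    rw [hvol]
    have : 0 < (1 - δ) ^ n := pow_pos (by linarith) n
    simpa using this
  have hI0 : ∀ f : (Fin n → ℝ) → ℝ, ContinuousOn f (Bx n δ) → (∀ z ∈ Bx n δ, 0 < f z) →
      0 < IB δ ρ f := by
    intro f hf hf0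
    unfold IB
    rw [setIntegral_pos_iff_support_of_nonneg_ae]
    · have : Function.support (fun z => f z * ρ z) ∩ Bx n δ = Bx n δ := by
        rw [Set.inter_eq_right]
        intro z hz
        exact (mul_pos (hf0 z hz) (hρ0 z hz)).ne'
      rw [this]
      exact pos_iff_ne_zero.2 hne
    · refine (ae_restrict_iff' (tha_meas n δ)).2 (Eventually.of_forall fun z hz => ?_)
      exact (mul_pos (hf0 z hz) (hρ0 z hz)).le
    · exact tha_int (hf.mul hρc)
  set I1 := IB δ ρ (fun _ => 1) with hI1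
  have hI1p : 0 < I1 := hI0 _ continuousOn_const (fun _ _ => one_pos)
  have hEA : 0 < IB δ ρ (fun z => Real.exp (X z - 1 / 2 * S z)) :=
    hI0 _ (Real.continuous_exp.comp_continuousOn (hXc.sub (continuousOn_const.mul hSc)))
      (fun _ _ => Real.exp_pos _)
  have hEB : 0 < IB δ ρ (fun z => Real.exp (-X z)) :=
    hI0 _ (Real.continuous_exp.comp_continuousOn hXc.neg) (fun _ _ => Real.exp_pos _)
  have hSn : 0 ≤ IB δ ρ S := by
    refine setIntegral_nonneg (tha_meas n δ) fun z hz => ?_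
    exact mul_nonneg (hS0 z hz) (hρ0 z hz).le
  have hlin1 : IB δ ρ (fun z => X z - 1 / 2 * S z) = IB δ ρ X - 1 / 2 * IB δ ρ S := by
    unfold IB
    have i1 : IntegrableOn (fun z => X z * ρ z) (Bx n δ) := tha_int (hXc.mul hρc)
    have i2 : IntegrableOn (fun z => 1 / 2 * (S z * ρ z)) (Bx n δ) :=
      tha_int (continuousOn_const.mul (hSc.mul hρc))
    rw [← integral_const_mul, ← integral_sub i1 i2]
    refine integral_congr_ae (Eventually.of_forall fun z => ?_)
    simp only []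
    ring
  have hlin2 : IB δ ρ (fun z => -X z) = -IB δ ρ X := by
    unfold IB
    rw [← integral_neg]
    refine integral_congr_ae (Eventually.of_forall fun z => ?_)
    simp only []
    ring
  have hsum : Real.log (IB δ ρ (fun z => Real.exp (X z - 1 / 2 * S z)) / I1)
      + Real.log (IB δ ρ (fun z => Real.exp (-X z)) / I1) ≤ 0 := by
    rw [hlin1] at hA
    rw [hlin2] at hB
    have hms : 0 ≤ IB δ ρ S / I1 := div_nonneg hSn hI1p.le
    have e1 : (IB δ ρ X - 1 / 2 * IB δ ρ S) / I1 = IB δ ρ X / I1 - 1 / 2 * (IB δ ρ S / I1) := by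
      ring
    have e2 : -IB δ ρ X / I1 = -(IB δ ρ X / I1) := by ring
    rw [e1] at hA
    rw [e2] at hB
    linarith
  rw [← Real.log_mul (div_pos hEA hI1p).ne' (div_pos hEB hI1p).ne'] at hsum
  have hprod : IB δ ρ (fun z => Real.exp (X z - 1 / 2 * S z)) *
      IB δ ρ (fun z => Real.exp (-X z)) ≤ I1 ^ 2 := by
    have h := (Real.log_nonpos_iff (mul_pos (div_pos hEA hI1p) (div_pos hEB hI1p)).le).1 hsum
    rw [div_mul_div_comm, div_le_one (mul_pos hI1p hI1p)] at h
    rw [sq]
    exact h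
  have e1 : (∫ z in Bx n δ, wz z * (qf V (Yv α a z)) ^ (-(1 / 2) : ℝ)) = I1 := by
    rw [hI1]
    unfold IB
    refine setIntegral_congr_fun (tha_meas n δ) fun z _ => ?_
    simp only [one_mul]
    exact (hρd z).symm
  have e2 : (∫ z in Bx n δ, wz z * (qf W (Yv α a z)) ^ (-(1 / 2) : ℝ))
      = IB δ ρ (fun z => Real.exp (-X z)) := by
    unfold IB
    refine setIntegral_congr_fun (tha_meas n δ) fun z hz => ?_
    simp only []
    rw [hρe z hz, Real.rpow_def_of_pos (hF z hz).2.1, hXd]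
    have : Real.exp (-(1 / 2 * (Real.log (w z) - Real.log (q z)))) *
        Real.exp (-(1 / 2) * Real.log (q z)) = Real.exp (Real.log (w z) * (-(1 / 2))) := by
      rw [← Real.exp_add]
      ring_nf
    rw [← this]
    ring
  have e3 : (∫ z in Bx n δ, wz z * |(TT V W (Yv α a z)).det|
        * (qf V (Yv α a z)) ^ (-(3 / 2) : ℝ))
      ≤ IB δ ρ (fun z => Real.exp (X z - 1 / 2 * S z)) := by
    unfold IB
    refine integral_mono_of_nonneg ?_ ?_ ?_
    · refine (ae_restrict_iff' (tha_meas n δ)).2 (Eventually.of_forall fun z hz => ?_)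
      have := tha_wz0 hP.d0 hz
      have h' : 0 ≤ (qf V (Yv α a z)) ^ (-(3 / 2) : ℝ) := Real.rpow_nonneg (hF z hz).1.le _
      exact mul_nonneg (mul_nonneg this.le (abs_nonneg _)) h'
    · exact tha_int ((Real.continuous_exp.comp_continuousOn
        (hXc.sub (continuousOn_const.mul hSc))).mul hρc)
    · refine (ae_restrict_iff' (tha_meas n δ)).2 (Eventually.of_forall fun z hz => ?_)
      have hr := h1 n m V W hV hW (Yv α a z) (tha_Y hP hz)
      have hq0 := (hF z hz).1
      have hw0 := (hF z hz).2.1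
      have hdet : |(TT V W (Yv α a z)).det|
          ≤ Real.exp ((Real.log (q z) + Real.log (w z) - S z) / 2) := by
        refine abs_le_of_sq_le_sq ?_ (Real.exp_pos _).le
        refine hr.trans (le_of_eq ?_)
        rw [← Real.exp_nat_mul]
        have : ((2 : ℕ) : ℝ) * ((Real.log (q z) + Real.log (w z) - S z) / 2)
            = Real.log (q z) + Real.log (w z) + -S z := by
          push_cast
          ring
        rw [this, Real.exp_add, Real.exp_add, Real.exp_log hq0, Real.exp_log hw0]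
      show wz z * |(TT V W (Yv α a z)).det| * (q z) ^ (-(3 / 2) : ℝ)
        ≤ Real.exp (X z - 1 / 2 * S z) * ρ z
      rw [hρe z hz, Real.rpow_def_of_pos hq0, hXd]
      calc wz z * |(TT V W (Yv α a z)).det| * Real.exp (Real.log (q z) * -(3 / 2))
          ≤ wz z * Real.exp ((Real.log (q z) + Real.log (w z) - S z) / 2)
            * Real.exp (Real.log (q z) * -(3 / 2)) := by
            refine mul_le_mul_of_nonneg_right ?_ (Real.exp_pos _).le
            exact mul_le_mul_of_nonneg_left hdet (tha_wz0 hP.d0 hz).le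
        _ = wz z * Real.exp (Real.log (w z) / 2 - Real.log (q z) - S z / 2) := by
            rw [mul_assoc, ← Real.exp_add]
            ring_nf
        _ = Real.exp (1 / 2 * (Real.log (w z) - Real.log (q z)) - 1 / 2 * S z)
            * (wz z * Real.exp (-(1 / 2) * Real.log (q z))) := by
            rw [mul_left_comm, ← Real.exp_add]
            ring_nf
  rw [e1, e2]
  refine le_trans ?_ hprod
  exact mul_le_mul_of_nonneg_right e3 hEB.le

end Pool.Agent.Helper44.GN
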